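import Pool.Agent.Helper21_UR.Stmts

/-!
# Module ANUM (MP_c97607_co)
-/

namespace Pool.Agent.Helper21_UR.H85

lemma pol1 {r : ℝ} (h1 : (9 / 10 : ℝ) ≤ r) (h2 : r ≤ (1 : ℝ)) :
    1 / 10 * (1 + r ^ 2) ^ 4 ≤ r * (3.82 * r ^ 2 - 0.49 - 1.69 * (r ^ 2) ^ 2) := by
  have ha : 0 ≤ r - (9 / 10 : ℝ) := by linarith
  have hb : 0 ≤ (1 : ℝ) - r := by linarith
  have e : r * (3.82 * r ^ 2 - 0.49 - 1.69 * (r ^ 2) ^ 2) - 1 / 10 * (1 + r ^ 2) ^ 4 =
      (272568779 / 10 : ℝ) * ((r - (9 / 10 : ℝ)) ^ 0 * ((1 : ℝ) - r) ^ 8) +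
      (207846438 : ℝ) * ((r - (9 / 10 : ℝ)) ^ 1 * ((1 : ℝ) - r) ^ 7) +
      (680985750 : ℝ) * ((r - (9 / 10 : ℝ)) ^ 2 * ((1 : ℝ) - r) ^ 6) +
      (1245407690 : ℝ) * ((r - (9 / 10 : ℝ)) ^ 3 * ((1 : ℝ) - r) ^ 5) +
      (1378719500 : ℝ) * ((r - (9 / 10 : ℝ)) ^ 4 * ((1 : ℝ) - r) ^ 4) +
      (932268000 : ℝ) * ((r - (9 / 10 : ℝ)) ^ 5 * ((1 : ℝ) - r) ^ 3) +
      (365360000 : ℝ) * ((r - (9 / 10 : ℝ)) ^ 6 * ((1 : ℝ) - r) ^ 2) +
      (70800000 : ℝ) * ((r - (9 / 10 : ℝ)) ^ 7 * ((1 : ℝ) - r) ^ 1) +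
      (4000000 : ℝ) * ((r - (9 / 10 : ℝ)) ^ 8 * ((1 : ℝ) - r) ^ 0) := by ring
  have h : 0 ≤ r * (3.82 * r ^ 2 - 0.49 - 1.69 * (r ^ 2) ^ 2) - 1 / 10 * (1 + r ^ 2) ^ 4 := by
    rw [e]
    positivity
  linarith

lemma pol2 {r : ℝ} (h1 : (91 / 200 : ℝ) ≤ r) (h2 : r ≤ (91 / 100 : ℝ)) :
    2 / 25 * (1 + r ^ 2) ^ 4 ≤ r * (3.5 * r ^ 2 - 0.25 - 2.25 * (r ^ 2) ^ 2) := by
  have ha : 0 ≤ r - (91 / 200 : ℝ) := by linarith
  have hb : 0 ≤ (91 / 100 : ℝ) - r := by linarith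
  have e : r * (3.5 * r ^ 2 - 0.25 - 2.25 * (r ^ 2) ^ 2) - 2 / 25 * (1 + r ^ 2) ^ 4 =
      (144208884644576958 / 117563131903788025 : ℝ) * ((r - (91 / 200 : ℝ)) ^ 0 * ((91 / 100 : ℝ) - r) ^ 8) +
      (28221061439269471328 / 117563131903788025 : ℝ) * ((r - (91 / 200 : ℝ)) ^ 1 * ((91 / 100 : ℝ) - r) ^ 7) +
      (30514182491839551328 / 16794733129112575 : ℝ) * ((r - (91 / 200 : ℝ)) ^ 2 * ((91 / 100 : ℝ) - r) ^ 6) +
      (97231430056343885312 / 16794733129112575 : ℝ) * ((r - (91 / 200 : ℝ)) ^ 3 * ((91 / 100 : ℝ) - r) ^ 5) +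
      (33086055151822462656 / 3358946625822515 : ℝ) * ((r - (91 / 200 : ℝ)) ^ 4 * ((91 / 100 : ℝ) - r) ^ 4) +
      (159106653840925301248 / 16794733129112575 : ℝ) * ((r - (91 / 200 : ℝ)) ^ 5 * ((91 / 100 : ℝ) - r) ^ 3) +
      (83362638993732341248 / 16794733129112575 : ℝ) * ((r - (91 / 200 : ℝ)) ^ 6 * ((91 / 100 : ℝ) - r) ^ 2) +
      (139911549791043284992 / 117563131903788025 : ℝ) * ((r - (91 / 200 : ℝ)) ^ 7 * ((91 / 100 : ℝ) - r) ^ 1) +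
      (7195903863210741248 / 117563131903788025 : ℝ) * ((r - (91 / 200 : ℝ)) ^ 8 * ((91 / 100 : ℝ) - r) ^ 0) := by ring
  have h : 0 ≤ r * (3.5 * r ^ 2 - 0.25 - 2.25 * (r ^ 2) ^ 2) - 2 / 25 * (1 + r ^ 2) ^ 4 := by
    rw [e]
    positivity
  linarith

lemma pol3 {r : ℝ} (h1 : (13 / 100 : ℝ) ≤ r) (h2 : r ≤ (93 / 200 : ℝ)) :
    11 / 50 * (1 + r ^ 2) ^ 4 ≤ r * (2 - 4 * r ^ 2) := by
  have ha : 0 ≤ r - (13 / 100 : ℝ) := by linarith
  have hb : 0 ≤ (93 / 200 : ℝ) - r := by linarith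
  have e : r * (2 - 4 * r ^ 2) - 11 / 50 * (1 + r ^ 2) ^ 4 =
      (1021358672768264832 / 10151691938916025 : ℝ) * ((r - (13 / 100 : ℝ)) ^ 0 * ((93 / 200 : ℝ) - r) ^ 8) +
      (41544431118395959808 / 10151691938916025 : ℝ) * ((r - (13 / 100 : ℝ)) ^ 1 * ((93 / 200 : ℝ) - r) ^ 7) +
      (243699277539246059904 / 10151691938916025 : ℝ) * ((r - (13 / 100 : ℝ)) ^ 2 * ((93 / 200 : ℝ) - r) ^ 6) +
      (635588593702681948544 / 10151691938916025 : ℝ) * ((r - (13 / 100 : ℝ)) ^ 3 * ((93 / 200 : ℝ) - r) ^ 5) +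
      (180753290100060742448 / 2030338387783205 : ℝ) * ((r - (13 / 100 : ℝ)) ^ 4 * ((93 / 200 : ℝ) - r) ^ 4) +
      (736113758337736604256 / 10151691938916025 : ℝ) * ((r - (13 / 100 : ℝ)) ^ 5 * ((93 / 200 : ℝ) - r) ^ 3) +
      (329885336142593825304 / 10151691938916025 : ℝ) * ((r - (13 / 100 : ℝ)) ^ 6 * ((93 / 200 : ℝ) - r) ^ 2) +
      (68100814094557213992 / 10151691938916025 : ℝ) * ((r - (13 / 100 : ℝ)) ^ 7 * ((93 / 200 : ℝ) - r) ^ 1) +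
      (5945882052466605589 / 20303383877832050 : ℝ) * ((r - (13 / 100 : ℝ)) ^ 8 * ((93 / 200 : ℝ) - r) ^ 0) := by ring
  have h : 0 ≤ r * (2 - 4 * r ^ 2) - 11 / 50 * (1 + r ^ 2) ^ 4 := by
    rw [e]
    positivity
  linarith

lemma div_form {c r y N : ℝ} (hy : y = r ^ 2) (h : c * (1 + r ^ 2) ^ 4 ≤ r * N) :
    c ≤ r * N / (1 + y) ^ 4 := by
  rw [le_div_iff₀ (by rw [hy]; positivity), hy]
  exact h

theorem anum : AnumStatement := by
  have hr : ∀ x y : ℝ, y = Real.exp (-x) → Real.sqrt y = Real.exp (-(x / 2)) ∧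
      y = Real.sqrt y ^ 2 := by
    intro x y hy
    have h1 : y = Real.exp (-(x / 2)) ^ 2 := by
      rw [hy, ← Real.exp_nat_mul]
      congr 1
      push_cast
      ring
    have h2 : Real.sqrt y = Real.exp (-(x / 2)) := by
      rw [h1, Real.sqrt_sq (Real.exp_pos _).le]
    exact ⟨h2, by rw [h2]; exact h1⟩
  have hup : ∀ {x : ℝ}, 1 / 5 ≤ x → Real.exp (-(x / 2)) ≤ (91 / 100 : ℝ) := by
    intro x hx
    rw [Real.exp_neg, inv_le_comm₀ (Real.exp_pos _) (by norm_num)]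
    have := Real.add_one_le_exp (x / 2)
    norm_num
    linarith
  have h775 : Real.exp 0.775 ≤ 2.18 ∧ 2.155 ≤ Real.exp 0.775 := by
    have h1 := Real.exp_bound' (x := 0.775) (by norm_num) (by norm_num) (n := 5) (by norm_num)
    have h2 := Real.sum_le_exp_of_nonneg (x := 0.775) (by norm_num) 5
    simp only [Finset.sum_range_succ, Finset.sum_range_zero, Nat.factorial] at h1 h2
    norm_num at h1 h2
    constructor <;> linarith
  refine ⟨?_, ?_, ?_⟩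
  · intro x hx1 hx2 y hy
    obtain ⟨h1, h2⟩ := hr x y hy
    have h3 : (9 / 10 : ℝ) ≤ Real.sqrt y := by
      rw [h1]
      have := Real.add_one_le_exp (-(x / 2))
      linarith
    have h4 : Real.sqrt y ≤ (1 : ℝ) := by
      rw [h1, Real.exp_le_one_iff]
      linarith
    have h5 := pol1 h3 h4
    have h6 := div_form h2 h5
    rw [← h2] at h6
    exact h6
  · intro x hx1 hx2 y hy
    obtain ⟨h1, h2⟩ := hr x y hy
    have h3 : (91 / 200 : ℝ) ≤ Real.sqrt y := by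
      rw [h1]
      have h4 : Real.exp (-0.775) ≤ Real.exp (-(x / 2)) := Real.exp_le_exp.2 (by linarith)
      refine le_trans ?_ h4
      rw [Real.exp_neg, le_inv_comm₀ (by norm_num) (Real.exp_pos _)]
      refine h775.1.trans ?_
      norm_num
    have h4 : Real.sqrt y ≤ (91 / 100 : ℝ) := by
      rw [h1]
      exact hup hx1
    have h5 := pol2 h3 h4
    have h6 := div_form h2 h5
    rw [← h2] at h6
    exact h6
  · intro x hx1 hx2 y hy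
    obtain ⟨h1, h2⟩ := hr x y hy
    have h3 : (13 / 100 : ℝ) ≤ Real.sqrt y := by
      rw [h1]
      have h4 : Real.exp (-2) ≤ Real.exp (-(x / 2)) := Real.exp_le_exp.2 (by linarith)
      refine le_trans ?_ h4
      rw [Real.exp_neg, le_inv_comm₀ (by norm_num) (Real.exp_pos _)]
      have h5 : Real.exp 2 = Real.exp 1 ^ 2 := by rw [← Real.exp_nat_mul]; norm_num
      rw [h5]
      have h6 := Real.exp_one_lt_d9
      have h7 := pow_le_pow_left₀ (Real.exp_pos 1).le h6.le 2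
      refine h7.trans ?_
      norm_num
    have h4 : Real.sqrt y ≤ (93 / 200 : ℝ) := by
      rw [h1]
      have h4 : Real.exp (-(x / 2)) ≤ Real.exp (-0.775) := Real.exp_le_exp.2 (by linarith)
      refine le_trans h4 ?_
      rw [Real.exp_neg, inv_le_comm₀ (Real.exp_pos _) (by norm_num)]
      refine le_trans ?_ h775.2
      norm_num
    have h5 := pol3 h3 h4
    have h6 := div_form h2 h5
    rw [← h2] at h6
    exact h6

end Pool.Agent.Helper21_UR.H85
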