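import Pool.Agent.Helper85_UR.T1

/-!
# Modules T2, T3, T4, T5 (MP_c97607_co)
-/

namespace Pool.Agent.Helper21_UR.H85

open Complex MeasureTheory

lemma full_int {b : ℝ} (hb : 0 < b) :
    Integrable (fun x : ℝ => Real.exp (-(b * |x|))) ∧
    ∫ x : ℝ, Real.exp (-(b * |x|)) = 2 / b := by
  obtain ⟨h1, h2⟩ := tail_int hb (le_refl 0)
  have hset : {x : ℝ | 0 < |x|} = {(0 : ℝ)}ᶜ := by
    ext x
    simp
  rw [hset] at h1 h2
  unfold IntegrableOn at h1
  rw [restrict_compl_singleton] at h1 h2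
  simp only [sub_zero] at h1 h2
  exact ⟨h1, h2⟩

/-- Powers against the exponential. -/
lemma pow_exp_le {u a : ℝ} (hu : 50 ≤ u) (k : ℕ) (ha : (k : ℝ) / 50 ≤ a) :
    u ^ k * Real.exp (-(a * u)) ≤ 50 ^ k * Real.exp (-(50 * a)) := by
  have h1 : u / 50 ≤ Real.exp ((u - 50) / 50) := by
    have := Real.add_one_le_exp ((u - 50) / 50)
    linarith
  have h2 := pow_le_pow_left₀ (by positivity) h1 k
  rw [← Real.exp_nat_mul, div_pow] at h2
  have h3 : u ^ k ≤ 50 ^ k * Real.exp (k * ((u - 50) / 50)) := by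
    rw [div_le_iff₀ (by positivity)] at h2
    linarith
  calc u ^ k * Real.exp (-(a * u))
      ≤ 50 ^ k * Real.exp (k * ((u - 50) / 50)) * Real.exp (-(a * u)) := by gcongr
    _ = 50 ^ k * Real.exp (k * ((u - 50) / 50) + -(a * u)) := by rw [Real.exp_add]; ring
    _ ≤ _ := by
      gcongr
      have : (k : ℝ) / 50 * (u - 50) ≤ a * (u - 50) :=
        mul_le_mul_of_nonneg_right ha (by linarith)
      have e : (k : ℝ) * ((u - 50) / 50) = (k : ℝ) / 50 * (u - 50) := by ring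
      rw [e]
      linarith

lemma exp_neg_nat_le (N : ℕ) {x : ℝ} (hx : (N : ℝ) ≤ x) : Real.exp (-x) ≤ 1 / 2.7 ^ N := by
  rw [Real.exp_neg, ← one_div]
  apply one_div_le_one_div_of_le (by positivity)
  have h2 : (2.7 : ℝ) ≤ Real.exp 1 := by linarith [Real.exp_one_gt_d9]
  calc (2.7 : ℝ) ^ N ≤ Real.exp 1 ^ N := pow_le_pow_left₀ (by norm_num) h2 N
    _ = Real.exp N := by rw [← Real.exp_nat_mul, mul_one]
    _ ≤ _ := Real.exp_le_exp.2 hx

lemma sqrt_ge {t0 : ℝ} (h0 : 0 < t0) (h1 : t0 ≤ 1 / 50) : t0 ≤ Real.sqrt (2 * Real.pi / zz t0) := by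
  apply Real.le_sqrt_of_sq_le
  unfold zz
  rw [div_div_eq_mul_div, le_div_iff₀ (by positivity)]
  have h2 := Real.pi_lt_d2
  have h3 := Real.pi_pos
  have h4 : t0 * (t0 * Real.pi) ≤ t0 * (3 : ℝ) := by
    apply mul_le_mul_of_nonneg_left _ h0.le
    nlinarith
  nlinarith

/-- The final comparison for `T3`, `T4`, `T5`. -/
lemma final_le {t0 B a : ℝ} (h0 : 0 < t0) (h1 : t0 ≤ 1 / 50) (hB : 0 ≤ B) (k : ℕ)
    (ha : ((k + 6 : ℕ) : ℝ) / 50 ≤ a)
    (hnum : B * (80 * (50 ^ (k + 6) * Real.exp (-(50 * a)))) ≤ 1 / 1000) :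
    B * (1 / t0) ^ k * (Real.exp (zz t0) * Real.exp (-(a / t0))) ≤ 1 / 1000 * W0 t0 := by
  unfold W0
  have hu : 50 ≤ 1 / t0 := by
    rw [le_div_iff₀ h0]; linarith
  have h2 := pow_exp_le hu (k + 6) ha
  have h3 := sqrt_ge h0 h1
  have hpi : 8 * Real.pi ^ 2 ≤ 80 := by
    have := Real.pi_lt_d2
    have := Real.pi_pos
    nlinarith
  have e1 : a * (1 / t0) = a / t0 := by ring
  rw [e1] at h2
  have h4 : B * (80 * ((1 / t0) ^ (k + 6) * Real.exp (-(a / t0)))) ≤ 1 / 1000 := by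
    refine le_trans ?_ hnum
    gcongr
  have h5 : B * (1 / t0) ^ k * Real.exp (-(a / t0)) ≤ 1 / 1000 * (t0 ^ 6 / 80) := by
    have e2 : B * (80 * ((1 / t0) ^ (k + 6) * Real.exp (-(a / t0)))) * (t0 ^ 6 / 80) =
        B * (1 / t0) ^ k * Real.exp (-(a / t0)) := by
      rw [pow_add]
      field_simp
    rw [← e2]
    exact mul_le_mul_of_nonneg_right h4 (by positivity)
  have h6 : t0 ^ 6 / 80 ≤ t0 ^ 5 / (8 * Real.pi ^ 2) * Real.sqrt (2 * Real.pi / zz t0) := by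
    calc t0 ^ 6 / 80 = t0 ^ 5 / 80 * t0 := by ring
      _ ≤ t0 ^ 5 / (8 * Real.pi ^ 2) * Real.sqrt (2 * Real.pi / zz t0) := by
        gcongr
  calc B * (1 / t0) ^ k * (Real.exp (zz t0) * Real.exp (-(a / t0)))
      = (B * (1 / t0) ^ k * Real.exp (-(a / t0))) * Real.exp (zz t0) := by ring
    _ ≤ (1 / 1000 * (t0 ^ 5 / (8 * Real.pi ^ 2) * Real.sqrt (2 * Real.pi / zz t0))) *
        Real.exp (zz t0) := by
        apply mul_le_mul_of_nonneg_right _ (Real.exp_pos _).le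
        refine h5.trans ?_
        gcongr
    _ = _ := by ring

/-- Constant bound of the double integral. -/
lemma JR_le_const {κ t0 c : ℝ} {m n : ℕ} {A : Set (ℝ × ℝ)} (hA : MeasurableSet A) {a b : ℝ}
    (ha : 0 ≤ a) (hb : 0 ≤ b)
    (hsub : A ⊆ Set.Icc (-a) a ×ˢ Set.Icc (-b) b) {G : ℝ} (hG : 0 ≤ G)
    (hbd : ∀ p ∈ A, ‖cexp ((n : ℂ) * tt t0 p.1) * FF κ (tt t0 p.1) c m p.2‖ ≤ G) :
    ‖JR κ t0 c m n A‖ ≤ 1 / (4 * Real.pi ^ 2) * (G * (2 * a) * (2 * b)) := by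
  have := JR_le (κ := κ) (t0 := t0) (c := c) (m := m) (n := n) hA measurableSet_Icc
    measurableSet_Icc hsub (g := fun _ => G) (h := fun _ => 1)
    (continuous_const.integrableOn_Icc) (continuous_const.integrableOn_Icc)
    (fun _ _ => hG) (fun _ _ => zero_le_one) (by
      intro p hp
      rw [mul_one]
      exact hbd p hp)
  refine this.trans (le_of_eq ?_)
  rw [setIntegral_const, setIntegral_const, smul_eq_mul, smul_eq_mul, Real.volume_real_Icc_of_le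
    (by linarith), Real.volume_real_Icc_of_le (by linarith)]
  ring

lemma K_le {z v a : ℝ} (hz : 0 ≤ z) (ha : 0 ≤ a) (hv : a ≤ |v|) :
    KK z v ≤ Real.exp (-(z / 2 * (a ^ 2 / (1 + a ^ 2)))) := by
  unfold KK
  apply Real.exp_le_exp.2
  have h1 : a ^ 2 ≤ v ^ 2 := by
    rw [← sq_abs v]
    exact pow_le_pow_left₀ ha hv 2
  have h2 : a ^ 2 / (1 + a ^ 2) ≤ v ^ 2 / (1 + v ^ 2) := by
    rw [div_le_div_iff₀ (by positivity) (by positivity)]
    nlinarith
  have h3 : z / 2 * (a ^ 2 / (1 + a ^ 2)) ≤ z / 2 * (v ^ 2 / (1 + v ^ 2)) :=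
    mul_le_mul_of_nonneg_left h2 (by positivity)
  linarith

theorem t3 (hform : FormStatement) (hcb : CbStatement) (hp : Ptb3Statement) : T3Statement := by
  intro κ ch t0 m n h
  have h0 : 0 < t0 := h.1
  have h1 : t0 ≤ 1 / 50 := h.2.1
  have hκ := h.2.2.2.1
  have hpi := Real.pi_gt_d2
  have hpi2 := Real.pi_lt_d2
  have hz : 0 ≤ zz t0 := by have := zz_ge h0 h1; linarith
  have key : ∀ p ∈ A3 t0, ‖cexp ((n : ℂ) * tt t0 p.1) * FF κ (tt t0 p.1) (ch * t0) m p.2‖ ≤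
      10.3 / t0 * (Real.exp (zz t0) * Real.exp (-(1.06 / t0))) := by
    rintro ⟨θ, φ⟩ ⟨hθ, hφ5, hφ⟩
    dsimp only at hθ hφ5 hφ ⊢
    obtain ⟨v, rfl⟩ : ∃ v, θ = t0 * v := ⟨θ / t0, by field_simp⟩
    obtain ⟨s, rfl⟩ : ∃ s, φ = t0 * s := ⟨φ / t0, by field_simp⟩
    have hv : |v| ≤ 3 / 5 := by
      rw [abs_mul, abs_of_pos h0] at hθ
      nlinarith
    have hv2 : v ^ 2 ≤ 36 / 100 := by
      rw [← sq_abs]
      nlinarith [abs_nonneg v]
    have hcosh := (hcb s v).2.1 hv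
    have hmain := norm_integrand hform h (v := v) (s := s) (by linarith) hφ
      (by norm_num : (0 : ℝ) < 0.46) hcosh
      (norm_PT_le hp h0 h1 hκ)
      (sin_arg (s := s) (v := v) h).2 (sinh_arg (s := s) (v := v) h).2
    refine hmain.trans ?_
    have hexp : Real.exp (-((Real.pi * |s| - t0 / 2 * s ^ 2) / (1 + v ^ 2))) ≤
        Real.exp (-(1.06 / t0)) := by
      rw [Real.exp_le_exp, neg_le_neg_iff, le_div_iff₀ (by positivity)]
      rw [abs_mul, abs_of_pos h0] at hφ5 hφ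
      have e1 : Real.pi * |s| - t0 / 2 * s ^ 2 = (Real.pi * (t0 * |s|) - (t0 * |s|) ^ 2 / 2) / t0 := by
        rw [← sq_abs s]
        field_simp
      rw [e1, div_mul_eq_mul_div]
      apply div_le_div_of_nonneg_right _ h0.le
      have e2 : (1.445 : ℝ) ≤ Real.pi * (t0 * |s|) - (t0 * |s|) ^ 2 / 2 := by
        nlinarith [mul_nonneg (by linarith : 0 ≤ t0 * |s| - 1 / 2)
          (by linarith : 0 ≤ Real.pi - (t0 * |s|) / 2 - 1 / 4)]
      nlinarith
    have hK : KK (zz t0) v ≤ 1 := by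
      unfold KK
      rw [Real.exp_le_one_iff]
      have : 0 ≤ zz t0 / 2 * (v ^ 2 / (1 + v ^ 2)) := by positivity
      linarith
    have hKp := (KK_pos (zz t0) v).le
    calc Real.exp (zz t0) * KK (zz t0) v *
          (0.46⁻¹ * Real.exp (-((Real.pi * |s| - t0 / 2 * s ^ 2) / (1 + v ^ 2)))) *
          (1.02 / t0 * 1.05 * (4 * 1.05 ^ 2) * 1.001)
        ≤ Real.exp (zz t0) * 1 * (0.46⁻¹ * Real.exp (-(1.06 / t0))) *
          (1.02 / t0 * 1.05 * (4 * 1.05 ^ 2) * 1.001) := by gcongr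
      _ = (0.46⁻¹ * (1.02 * 1.05 * (4 * 1.05 ^ 2) * 1.001)) / t0 *
          (Real.exp (zz t0) * Real.exp (-(1.06 / t0))) := by ring
      _ ≤ _ := by
        gcongr
        norm_num
  have hJ := JR_le_const (κ := κ) (t0 := t0) (c := ch * t0) (m := m) (n := n) (measurable_A3 t0)
    (a := 3 / 5 * t0) (b := Real.pi) (by positivity) (by positivity)
    (by
      rintro ⟨θ, φ⟩ ⟨hθ, hφ5, hφ⟩
      exact ⟨abs_le.1 hθ, abs_le.1 hφ⟩) (by positivity) key
  refine hJ.trans ?_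
  have e1 : 1 / (4 * Real.pi ^ 2) * (10.3 / t0 * (Real.exp (zz t0) * Real.exp (-(1.06 / t0))) *
      (2 * (3 / 5 * t0)) * (2 * Real.pi)) =
      (1 / (4 * Real.pi ^ 2) * (10.3 * (6 / 5) * (2 * Real.pi))) * (1 / t0) ^ 0 *
        (Real.exp (zz t0) * Real.exp (-(1.06 / t0))) := by
    field_simp
    norm_num
  rw [e1]
  have hB : 1 / (4 * Real.pi ^ 2) * (10.3 * (6 / 5) * (2 * Real.pi)) ≤ 2.1 := by
    have : 1 / (4 * Real.pi ^ 2) * (10.3 * (6 / 5) * (2 * Real.pi)) = 6.18 / Real.pi := by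
      field_simp; norm_num
    rw [this, div_le_iff₀ Real.pi_pos]
    linarith
  calc _ ≤ 2.1 * (1 / t0) ^ 0 * (Real.exp (zz t0) * Real.exp (-(1.06 / t0))) := by gcongr
    _ ≤ _ := by
      apply final_le h0 h1 (by norm_num) 0 (by norm_num)
      have := exp_neg_nat_le 53 (x := 50 * 1.06) (by norm_num)
      calc 2.1 * (80 * (50 ^ (0 + 6) * Real.exp (-(50 * 1.06))))
          ≤ 2.1 * (80 * (50 ^ (0 + 6) * (1 / 2.7 ^ 53))) := by gcongr
        _ ≤ _ := by norm_num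

theorem t4 (hform : FormStatement) (hcb : CbStatement) (hp : Ptb3Statement) : T4Statement := by
  intro κ ch t0 m n h
  have h0 : 0 < t0 := h.1
  have h1 : t0 ≤ 1 / 50 := h.2.1
  have hκ := h.2.2.2.1
  have hpi := Real.pi_gt_d2
  have hpi2 := Real.pi_lt_d2
  have hz : 0 ≤ zz t0 := by have := zz_ge h0 h1; linarith
  have key : ∀ p ∈ A4 t0, ‖cexp ((n : ℂ) * tt t0 p.1) * FF κ (tt t0 p.1) (ch * t0) m p.2‖ ≤
      15.8 / t0 * (Real.exp (zz t0) * Real.exp (-(0.869 / t0))) := by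
    rintro ⟨θ, φ⟩ ⟨hθ5, hθ, hφ⟩
    dsimp only at hθ hθ5 hφ ⊢
    obtain ⟨v, rfl⟩ : ∃ v, θ = t0 * v := ⟨θ / t0, by field_simp⟩
    obtain ⟨s, rfl⟩ : ∃ s, φ = t0 * s := ⟨φ / t0, by field_simp⟩
    have hv : |v| ≤ 3 := by
      rw [abs_mul, abs_of_pos h0] at hθ
      nlinarith
    have hv5 : 3 / 5 ≤ |v| := by
      rw [abs_mul, abs_of_pos h0] at hθ5
      nlinarith
    have hcosh := (hcb s v).1 hv
    have hmain := norm_integrand hform h (v := v) (s := s) hv hφ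
      (by norm_num : (0 : ℝ) < 0.3) hcosh
      (norm_PT_le hp h0 h1 hκ)
      (sin_arg (s := s) (v := v) h).2 (sinh_arg (s := s) (v := v) h).2
    refine hmain.trans ?_
    have hexp : Real.exp (-((Real.pi * |s| - t0 / 2 * s ^ 2) / (1 + v ^ 2))) ≤ 1 := by
      rw [Real.exp_le_one_iff, neg_nonpos]
      apply div_nonneg _ (by positivity)
      rw [abs_mul, abs_of_pos h0] at hφ
      have e1 : Real.pi * |s| - t0 / 2 * s ^ 2 = |s| * (Real.pi - (t0 * |s|) / 2) := by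
        rw [← sq_abs s]
        ring
      rw [e1]
      apply mul_nonneg (abs_nonneg s)
      linarith
    have hK : KK (zz t0) v ≤ Real.exp (-(0.869 / t0)) := by
      refine (K_le hz (by norm_num) hv5).trans (Real.exp_le_exp.2 ?_)
      rw [neg_le_neg_iff]
      unfold zz
      rw [div_le_iff₀ h0]
      have e1 : 2 * Real.pi ^ 2 / (3 * t0) / 2 * ((3 / 5) ^ 2 / (1 + (3 / 5) ^ 2)) * t0 =
          3 / 34 * Real.pi ^ 2 := by field_simp; norm_num
      rw [e1]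
      nlinarith
    have hKp := (KK_pos (zz t0) v).le
    calc Real.exp (zz t0) * KK (zz t0) v *
          (0.3⁻¹ * Real.exp (-((Real.pi * |s| - t0 / 2 * s ^ 2) / (1 + v ^ 2)))) *
          (1.02 / t0 * 1.05 * (4 * 1.05 ^ 2) * 1.001)
        ≤ Real.exp (zz t0) * Real.exp (-(0.869 / t0)) * (0.3⁻¹ * 1) *
          (1.02 / t0 * 1.05 * (4 * 1.05 ^ 2) * 1.001) := by gcongr
      _ = (0.3⁻¹ * (1.02 * 1.05 * (4 * 1.05 ^ 2) * 1.001)) / t0 *
          (Real.exp (zz t0) * Real.exp (-(0.869 / t0))) := by ring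
      _ ≤ _ := by
        gcongr
        norm_num
  have hJ := JR_le_const (κ := κ) (t0 := t0) (c := ch * t0) (m := m) (n := n) (measurable_A4 t0)
    (a := 3 * t0) (b := Real.pi) (by positivity) (by positivity)
    (by
      rintro ⟨θ, φ⟩ ⟨hθ, hφ5, hφ⟩
      exact ⟨abs_le.1 hφ5, abs_le.1 hφ⟩) (by positivity) key
  refine hJ.trans ?_
  have e1 : 1 / (4 * Real.pi ^ 2) * (15.8 / t0 * (Real.exp (zz t0) * Real.exp (-(0.869 / t0))) *
      (2 * (3 * t0)) * (2 * Real.pi)) =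
      (1 / (4 * Real.pi ^ 2) * (15.8 * 6 * (2 * Real.pi))) * (1 / t0) ^ 0 *
        (Real.exp (zz t0) * Real.exp (-(0.869 / t0))) := by
    field_simp
    norm_num
  rw [e1]
  have hB : 1 / (4 * Real.pi ^ 2) * (15.8 * 6 * (2 * Real.pi)) ≤ 16 := by
    have : 1 / (4 * Real.pi ^ 2) * (15.8 * 6 * (2 * Real.pi)) = 47.4 / Real.pi := by
      field_simp; norm_num
    rw [this, div_le_iff₀ Real.pi_pos]
    linarith
  calc _ ≤ 16 * (1 / t0) ^ 0 * (Real.exp (zz t0) * Real.exp (-(0.869 / t0))) := by gcongr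
    _ ≤ _ := by
      apply final_le h0 h1 (by norm_num) 0 (by norm_num)
      have := exp_neg_nat_le 43 (x := 50 * 0.869) (by norm_num)
      calc 16 * (80 * (50 ^ (0 + 6) * Real.exp (-(50 * 0.869))))
          ≤ 16 * (80 * (50 ^ (0 + 6) * (1 / 2.7 ^ 43))) := by gcongr
        _ ≤ _ := by norm_num

theorem t5 (hminor : MinorStatement) (hp : Ptb3Statement) : T5Statement := by
  intro κ ch t0 m n h
  have h0 : 0 < t0 := h.1
  have h1 : t0 ≤ 1 / 50 := h.2.1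
  have htie := h.2.2.1
  have hκ := h.2.2.2.1
  have hch1 := h.2.2.2.2.1
  have hch2 := h.2.2.2.2.2
  have hκ1 : 1 / 2 ≤ κ := by rcases hκ with h | h <;> linarith
  have hκ2 : κ ≤ 3 / 2 := by rcases hκ with h | h <;> linarith
  have hpi := Real.pi_gt_d2
  have hpi2 := Real.pi_lt_d2
  have key : ∀ p ∈ A5 t0, ‖cexp ((n : ℂ) * tt t0 p.1) * FF κ (tt t0 p.1) (ch * t0) m p.2‖ ≤
      18.3 * (1 / t0) ^ 2 * (Real.exp (zz t0) * Real.exp (-(1.3 / t0))) := by
    rintro ⟨θ, φ⟩ ⟨hθ5, hθ, hφ⟩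
    dsimp only at hθ hθ5 hφ ⊢
    have hC := (hminor t0 θ φ κ h0 h1 hθ5.le hθ hκ).1
    have hPT := norm_PT_le (θ := θ) (φ := φ) hp h0 h1 hκ
    have harg : (((ch * t0 : ℝ) : ℂ) + I * ww κ (tt t0 θ) φ) / 2 =
        ((t0 / 2 * (ch + κ) : ℝ) : ℂ) + (((φ + κ * θ) / 2 : ℝ) : ℂ) * I := by
      simp only [ww, tt]
      push_cast
      linear_combination (-(κ : ℂ) * t0 / 2 - κ * θ * I / 2) * (Complex.I_sq)
    have hsh : ‖Complex.sinh ((((ch * t0 : ℝ) : ℂ) + I * ww κ (tt t0 θ) φ) / 2)‖ ≤ 1.05 := by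
      rw [harg]
      apply (norm_sinh_le _ _ ?_).2
      have hck : |ch + κ| ≤ 3 / 2 := abs_le.2 ⟨by linarith, by linarith⟩
      rw [abs_mul, abs_of_pos (by positivity : 0 < t0 / 2)]
      nlinarith [abs_nonneg (ch + κ)]
    have hexp : ‖cexp ((n : ℂ) * tt t0 θ)‖ * ‖cexp (-((κ : ℂ) * m * tt t0 θ) - I * m * φ)‖ =
        Real.exp (Real.pi ^ 2 / (3 * t0) + t0 / 12) := by
      rw [← norm_mul, ← Complex.exp_add, Complex.norm_exp]
      congr 1
      have e1 : ((n : ℂ) * tt t0 θ + (-((κ : ℂ) * m * tt t0 θ) - I * m * φ)) =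
          ((((n : ℝ) - κ * m) * t0 : ℝ) : ℂ) + ((((n : ℝ) - κ * m) * θ - m * φ : ℝ) : ℂ) * I := by
        simp only [tt]
        push_cast
        ring
      rw [e1, Complex.add_re, Complex.ofReal_re, Complex.re_ofReal_mul, Complex.I_re, mul_zero,
        add_zero]
      unfold Tie at htie
      rw [← htie]
      field_simp
      ring
    have e6 : ‖(4 * sinh ((((ch * t0 : ℝ) : ℂ) + I * ww κ (tt t0 θ) φ) / 2) ^ 2)‖ ≤
        4 * 1.05 ^ 2 := by
      rw [norm_mul, norm_pow]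
      have : ‖(4 : ℂ)‖ = 4 := by simp
      rw [this]
      have := pow_le_pow_left₀ (norm_nonneg _) hsh 2
      linarith
    unfold FF
    rw [norm_mul, norm_mul, norm_mul, norm_mul]
    have e7 : Real.exp (t0 / 12) ≤ 1.005 := by
      have := Real.abs_exp_sub_one_sub_id_le (x := t0 / 12) (by
        rw [abs_of_pos (by positivity)]; linarith)
      have := (abs_le.1 this).2
      nlinarith
    calc ‖cexp ((n : ℂ) * tt t0 θ)‖ * (‖cexp (-((κ : ℂ) * m * tt t0 θ) - I * m * φ)‖ *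
          ‖PT (tt t0 θ) (ww κ (tt t0 θ) φ)‖ * ‖Cp (cexp (-(tt t0 θ))) (cexp (I * ww κ (tt t0 θ) φ))‖ *
          ‖(4 * sinh ((((ch * t0 : ℝ) : ℂ) + I * ww κ (tt t0 θ) φ) / 2) ^ 2)‖)
        = (‖cexp ((n : ℂ) * tt t0 θ)‖ * ‖cexp (-((κ : ℂ) * m * tt t0 θ) - I * m * φ)‖) *
          (‖PT (tt t0 θ) (ww κ (tt t0 θ) φ)‖ * ‖Cp (cexp (-(tt t0 θ))) (cexp (I * ww κ (tt t0 θ) φ))‖ *
          ‖(4 * sinh ((((ch * t0 : ℝ) : ℂ) + I * ww κ (tt t0 θ) φ) / 2) ^ 2)‖) := by ring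
      _ ≤ Real.exp (Real.pi ^ 2 / (3 * t0) + t0 / 12) * ((1.02 / t0) *
          (4 / t0 * Real.exp (Real.pi ^ 2 / (3 * t0) - 1.3 / t0)) * (4 * 1.05 ^ 2)) := by
          rw [hexp]
          gcongr
      _ = (1.02 * 4 * (4 * 1.05 ^ 2)) * Real.exp (t0 / 12) * (1 / t0) ^ 2 *
          (Real.exp (zz t0) * Real.exp (-(1.3 / t0))) := by
          have e8 : zz t0 = Real.pi ^ 2 / (3 * t0) + Real.pi ^ 2 / (3 * t0) := by
            unfold zz; ring
          rw [e8, Real.exp_add, Real.exp_add, sub_eq_add_neg, Real.exp_add]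
          field_simp
      _ ≤ (1.02 * 4 * (4 * 1.05 ^ 2)) * 1.005 * (1 / t0) ^ 2 *
          (Real.exp (zz t0) * Real.exp (-(1.3 / t0))) := by gcongr
      _ ≤ _ := by
        gcongr
        norm_num
  have hJ := JR_le_const (κ := κ) (t0 := t0) (c := ch * t0) (m := m) (n := n) (measurable_A5 t0)
    (a := Real.pi) (b := Real.pi) (by positivity) (by positivity)
    (by
      rintro ⟨θ, φ⟩ ⟨hθ, hφ5, hφ⟩
      exact ⟨abs_le.1 hφ5, abs_le.1 hφ⟩) (by positivity) key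
  refine hJ.trans ?_
  have e1 : 1 / (4 * Real.pi ^ 2) * (18.3 * (1 / t0) ^ 2 * (Real.exp (zz t0) *
      Real.exp (-(1.3 / t0))) * (2 * Real.pi) * (2 * Real.pi)) =
      18.3 * (1 / t0) ^ 2 * (Real.exp (zz t0) * Real.exp (-(1.3 / t0))) := by
    field_simp
    norm_num
  rw [e1]
  apply final_le h0 h1 (by norm_num) 2 (by norm_num)
  have := exp_neg_nat_le 65 (x := 50 * 1.3) (by norm_num)
  calc 18.3 * (80 * (50 ^ (2 + 6) * Real.exp (-(50 * 1.3))))
      ≤ 18.3 * (80 * (50 ^ (2 + 6) * (1 / 2.7 ^ 65))) := by gcongr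
    _ ≤ _ := by norm_num

theorem t2 (hform : FormStatement) (hcb : CbStatement) (hp : Ptb2Statement) : T2Statement := by
  intro κ ch t0 m n h
  have h0 : 0 < t0 := h.1
  have h1 : t0 ≤ 1 / 50 := h.2.1
  have hκ := h.2.2.2.1
  have hpi := Real.pi_gt_d2
  have hpi2 := Real.pi_lt_d2
  have hz328 := zz_ge h0 h1
  have hz : 0 < zz t0 := by linarith
  set z := zz t0 with hzdef
  have key : ∀ p ∈ A2 t0, ‖cexp ((n : ℂ) * tt t0 p.1) * FF κ (tt t0 p.1) (ch * t0) m p.2‖ ≤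
      (16 * t0 ^ 3 * (Real.exp z * Real.exp (-(0.04128 * z)))) *
        Real.exp (-((0.87 / t0) * |p.2|)) := by
    rintro ⟨θ, φ⟩ ⟨hθ5, hθ, hφ⟩
    dsimp only at hθ hθ5 hφ ⊢
    obtain ⟨v, rfl⟩ : ∃ v, θ = t0 * v := ⟨θ / t0, by field_simp⟩
    obtain ⟨s, rfl⟩ : ∃ s, φ = t0 * s := ⟨φ / t0, by field_simp⟩
    have hv : |v| ≤ 3 / 5 := by
      rw [abs_mul, abs_of_pos h0] at hθ
      nlinarith
    have hv5 : 3 / 10 ≤ |v| := by
      rw [abs_mul, abs_of_pos h0] at hθ5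
      nlinarith
    have hv2 : v ^ 2 ≤ 36 / 100 := by
      rw [← sq_abs]
      nlinarith [abs_nonneg v]
    have hs : t0 * |s| ≤ 1 / 2 := by
      rwa [abs_mul, abs_of_pos h0] at hφ
    have hcosh := (hcb s v).2.1 hv
    have hmain := norm_integrand hform h (v := v) (s := s) (by linarith) (by linarith)
      (by norm_num : (0 : ℝ) < 0.46) hcosh
      (norm_PT_le_one hp h0 h1 hκ hv hφ)
      (sin_arg (s := s) (v := v) h).1 (sinh_arg (s := s) (v := v) h).1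
    refine hmain.trans ?_
    rw [← hzdef]
    have hexp : Real.exp (-((Real.pi * |s| - t0 / 2 * s ^ 2) / (1 + v ^ 2))) ≤
        Real.exp (-(2.12 * |s|)) := by
      rw [Real.exp_le_exp, neg_le_neg_iff, le_div_iff₀ (by positivity)]
      have hs2 : s ^ 2 = |s| * |s| := by rw [← sq_abs, pow_two]
      rw [hs2]
      have e2 : t0 / 2 * (|s| * |s|) ≤ 1 / 4 * |s| := by
        have := mul_le_mul_of_nonneg_right hs (abs_nonneg s)
        linarith
      have e3 : 2.12 * |s| * (1 + v ^ 2) ≤ 2.12 * |s| * (136 / 100) := by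
        apply mul_le_mul_of_nonneg_left _ (by positivity)
        linarith
      have e4 : 3.14 * |s| ≤ Real.pi * |s| := mul_le_mul_of_nonneg_right hpi.le (abs_nonneg s)
      have e5 : 0 ≤ |s| := abs_nonneg s
      nlinarith
    have hK : KK z v ≤ Real.exp (-(0.04128 * z)) := by
      refine (K_le hz.le (by norm_num) hv5).trans (Real.exp_le_exp.2 ?_)
      rw [neg_le_neg_iff]
      nlinarith
    have hcube : (|s| + 3 / 2 * (1 + |v|)) ^ 3 ≤ 13.824 * Real.exp (1.25 * |s|) := by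
      have e0 : (|s| + 3 / 2 * (1 + |v|)) ^ 3 ≤ (|s| + 2.4) ^ 3 :=
        pow_le_pow_left₀ (by positivity) (by linarith) 3
      have e1 : (|s| + 2.4) / 2.4 ≤ Real.exp (|s| / 2.4) := by
        have := Real.add_one_le_exp (|s| / 2.4)
        have e : (|s| + 2.4) / 2.4 = |s| / 2.4 + 1 := by ring
        linarith
      have e2 := pow_le_pow_left₀ (by positivity) e1 3
      rw [← Real.exp_nat_mul] at e2
      have e3 : ((3 : ℕ) : ℝ) * (|s| / 2.4) = 1.25 * |s| := by push_cast; ring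
      rw [e3] at e2
      have e4 : ((|s| + 2.4) / 2.4) ^ 3 = (|s| + 2.4) ^ 3 / 13.824 := by
        rw [div_pow]; norm_num
      rw [e4, div_le_iff₀ (by norm_num)] at e2
      exact e0.trans (e2.trans (le_of_eq (mul_comm _ _)))
    have hKp := (KK_pos z v).le
    have hlast : Real.exp (1.25 * |s|) * Real.exp (-(2.12 * |s|)) =
        Real.exp (-((0.87 / t0) * |t0 * s|)) := by
      rw [← Real.exp_add, abs_mul, abs_of_pos h0]
      congr 1
      field_simp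
      ring
    calc Real.exp z * KK z v *
          (0.46⁻¹ * Real.exp (-((Real.pi * |s| - t0 / 2 * s ^ 2) / (1 + v ^ 2)))) *
          (1 * (1.02 * (t0 / 2) * (|s| + 3 / 2 * (1 + |v|))) *
        (4 * (1.02 * (t0 / 2) * (|s| + 3 / 2 * (1 + |v|))) ^ 2) * 1.001)
        = (0.46⁻¹ * (1.02 ^ 3 / 2 * 1.001)) * t0 ^ 3 * (Real.exp z * KK z v) *
          ((|s| + 3 / 2 * (1 + |v|)) ^ 3 *
            Real.exp (-((Real.pi * |s| - t0 / 2 * s ^ 2) / (1 + v ^ 2)))) := by ring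
      _ ≤ (0.46⁻¹ * (1.02 ^ 3 / 2 * 1.001)) * t0 ^ 3 *
          (Real.exp z * Real.exp (-(0.04128 * z))) *
          ((13.824 * Real.exp (1.25 * |s|)) * Real.exp (-(2.12 * |s|))) := by gcongr
      _ = (0.46⁻¹ * (1.02 ^ 3 / 2 * 1.001) * 13.824) * t0 ^ 3 *
          (Real.exp z * Real.exp (-(0.04128 * z))) *
          (Real.exp (1.25 * |s|) * Real.exp (-(2.12 * |s|))) := by ring
      _ ≤ _ := by
        rw [hlast]
        gcongr
        norm_num
  obtain ⟨hi, hI⟩ := full_int (b := 0.87 / t0) (by positivity)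
  have hJ := JR_le (κ := κ) (t0 := t0) (c := ch * t0) (m := m) (n := n) (measurable_A2 t0)
    (V := Set.Icc (-(3 / 5 * t0)) (3 / 5 * t0)) (Φ := Set.univ)
    measurableSet_Icc MeasurableSet.univ
    (by
      rintro ⟨θ, φ⟩ ⟨hθ, hφ5, hφ⟩
      exact ⟨abs_le.1 hφ5, Set.mem_univ _⟩)
    (g := fun x => 16 * t0 ^ 3 * (Real.exp z * Real.exp (-(0.04128 * z))))
    (h := fun y => Real.exp (-((0.87 / t0) * |y|)))
    (continuous_const.integrableOn_Icc) (hi.integrableOn)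
    (fun x _ => by positivity)
    (fun y _ => (Real.exp_pos _).le) key
  refine hJ.trans ?_
  rw [setIntegral_univ, hI, setIntegral_const, smul_eq_mul,
    Real.volume_real_Icc_of_le (by linarith)]
  have hfin : Real.exp (-(0.04128 * z)) ≤ 3.3e-5 * Real.sqrt (2 * Real.pi / z) := by
    have e1 : Real.exp (-(0.04128 * z)) / 3.3e-5 ≤ Real.sqrt (2 * Real.pi / z) := by
      apply Real.le_sqrt_of_sq_le
      rw [div_pow, le_div_iff₀ hz]
      have e2 : z / 328 ≤ Real.exp (z / 328 - 1) := by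
        have := Real.add_one_le_exp (z / 328 - 1)
        linarith
      have e3 : Real.exp (-(0.04128 * z)) ^ 2 * z ≤ 328 * Real.exp (-27) := by
        calc Real.exp (-(0.04128 * z)) ^ 2 * z
            = 328 * (Real.exp (-(0.04128 * z)) ^ 2 * (z / 328)) := by ring
          _ ≤ 328 * (Real.exp (-(0.04128 * z)) ^ 2 * Real.exp (z / 328 - 1)) := by gcongr
          _ = 328 * Real.exp (2 * -(0.04128 * z) + (z / 328 - 1)) := by
              rw [← Real.exp_nat_mul, ← Real.exp_add]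
              norm_num
          _ ≤ _ := by
              gcongr
              nlinarith
      have e4 := exp_neg_nat_le 27 (x := 27) (by norm_num)
      have e5 : Real.exp (-(0.04128 * z)) ^ 2 / 3.3e-5 ^ 2 * z =
          (Real.exp (-(0.04128 * z)) ^ 2 * z) / 3.3e-5 ^ 2 := by ring
      rw [e5, div_le_iff₀ (by norm_num)]
      calc Real.exp (-(0.04128 * z)) ^ 2 * z ≤ 328 * Real.exp (-27) := e3
        _ ≤ 328 * (1 / 2.7 ^ 27) := by gcongr
        _ ≤ 2 * 3 * 3.3e-5 ^ 2 := by norm_num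
        _ ≤ _ := by gcongr; linarith
    rw [div_le_iff₀ (by norm_num)] at e1
    linarith
  unfold W0
  rw [← hzdef]
  have hsq : 0 ≤ Real.sqrt (2 * Real.pi / z) := Real.sqrt_nonneg _
  calc 1 / (4 * Real.pi ^ 2) * ((3 / 5 * t0 - -(3 / 5 * t0)) *
        (16 * t0 ^ 3 * (Real.exp z * Real.exp (-(0.04128 * z)))) * (2 / (0.87 / t0)))
      = (t0 ^ 5 / (8 * Real.pi ^ 2) * Real.exp z) * ((76.8 / 0.87) * Real.exp (-(0.04128 * z))) := by
        field_simp
        ring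
    _ ≤ (t0 ^ 5 / (8 * Real.pi ^ 2) * Real.exp z) *
        ((76.8 / 0.87) * (3.3e-5 * Real.sqrt (2 * Real.pi / z))) := by gcongr
    _ ≤ (t0 ^ 5 / (8 * Real.pi ^ 2) * Real.exp z) * (3 / 1000 * Real.sqrt (2 * Real.pi / z)) := by
        gcongr ?_ * ?_
        nlinarith
    _ = _ := by ring

end Pool.Agent.Helper21_UR.H85
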