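import Pool.Agent.Helper21_UR.Stmts

/-!
# Tail regions: common lemmas (MP_c97607_co, modules T1-T5)
-/

namespace Pool.Agent.Helper21_UR.H85

open Complex MeasureTheory

lemma norm_vs (κ : ℝ) : ‖vs κ‖ = 1 := by
  unfold vs
  split <;> simp

lemma KK_pos (z v : ℝ) : 0 < KK z v := Real.exp_pos _

lemma abs_sinh_le {b : ℝ} (hb : |b| ≤ 1 / 50) : |Real.sinh b| ≤ 1.02 * |b| := by
  have h1 := Real.abs_exp_sub_one_sub_id_le (x := b) (by linarith)
  have h2 := Real.abs_exp_sub_one_sub_id_le (x := -b) (by rw [abs_neg]; linarith)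
  rw [Real.sinh_eq]
  have h3 : (Real.exp b - Real.exp (-b)) / 2 =
      b + ((Real.exp b - 1 - b) - (Real.exp (-b) - 1 - -b)) / 2 := by ring
  rw [h3]
  have h4 : |b ^ 2| ≤ 1 / 50 * |b| := by
    rw [abs_pow, pow_two]
    exact mul_le_mul_of_nonneg_right hb (abs_nonneg b)
  have h5 := abs_le.1 h4
  have h6 := abs_le.1 h1
  have h7 := abs_le.1 h2
  have h8 : (-b) ^ 2 = b ^ 2 := by ring
  rw [h8] at h7
  rw [abs_le]
  constructor <;> nlinarith [abs_nonneg b, le_abs_self b, neg_abs_le b]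

lemma cosh_le {b : ℝ} (hb : |b| ≤ 1 / 50) : Real.cosh b ≤ 1.02 := by
  have h1 := Real.abs_exp_sub_one_sub_id_le (x := b) (by linarith)
  have h2 := Real.abs_exp_sub_one_sub_id_le (x := -b) (by rw [abs_neg]; linarith)
  rw [Real.cosh_eq]
  have h4 : b ^ 2 ≤ (1 / 50) ^ 2 := sq_le_sq' (by linarith [abs_le.1 hb]) (abs_le.1 hb).2
  have h6 := abs_le.1 h1
  have h7 := abs_le.1 h2
  have h8 : (-b) ^ 2 = b ^ 2 := by ring
  rw [h8] at h7
  nlinarith

/-- Bound of the sine near the real axis. -/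
lemma norm_sin_le (a b : ℝ) (hb : |b| ≤ 1 / 50) :
    ‖Complex.sin ((a : ℂ) + (b : ℂ) * I)‖ ≤ 1.02 * (|a| + |b|) ∧
    ‖Complex.sin ((a : ℂ) + (b : ℂ) * I)‖ ≤ 1.05 := by
  have h0 : ‖Complex.sin ((a : ℂ) + (b : ℂ) * I)‖ ≤
      |Real.sin a| * Real.cosh b + |Real.cos a| * |Real.sinh b| := by
    rw [Complex.sin_add_mul_I]
    refine (norm_add_le _ _).trans ?_
    rw [norm_mul, norm_mul, norm_mul, norm_I, mul_one, ← Complex.ofReal_sin,
      ← Complex.ofReal_cos, ← Complex.ofReal_cosh, ← Complex.ofReal_sinh, Complex.norm_real,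
      Complex.norm_real, Complex.norm_real, Complex.norm_real, Real.norm_eq_abs, Real.norm_eq_abs,
      Real.norm_eq_abs, Real.norm_eq_abs, abs_of_pos (Real.cosh_pos b)]
  have h1 := cosh_le hb
  have h2 := abs_sinh_le hb
  have h3 := Real.abs_sin_le_one a
  have h4 := Real.abs_cos_le_one a
  have h5 : |Real.sin a| ≤ |a| := Real.abs_sin_le_abs
  have h6 : |Real.sin a| * Real.cosh b ≤ |a| * 1.02 :=
    mul_le_mul h5 h1 (Real.cosh_pos b).le (abs_nonneg a)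
  have h6' : |Real.sin a| * Real.cosh b ≤ 1 * 1.02 :=
    mul_le_mul h3 h1 (Real.cosh_pos b).le (by norm_num)
  have h7 : |Real.cos a| * |Real.sinh b| ≤ 1 * (1.02 * |b|) :=
    mul_le_mul h4 h2 (abs_nonneg _) (by norm_num)
  constructor
  · linarith
  · linarith

/-- Bound of the hyperbolic sine near the imaginary axis. -/
lemma norm_sinh_le (a b : ℝ) (ha : |a| ≤ 1 / 50) :
    ‖Complex.sinh ((a : ℂ) + (b : ℂ) * I)‖ ≤ 1.02 * (|a| + |b|) ∧
    ‖Complex.sinh ((a : ℂ) + (b : ℂ) * I)‖ ≤ 1.05 := by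
  have h0 : Complex.sinh ((a : ℂ) + (b : ℂ) * I) =
      -(I * Complex.sin ((-b : ℝ) + (a : ℝ) * I)) := by
    have h1 : ((a : ℂ) + (b : ℂ) * I) = (((-b : ℝ) : ℂ) + (a : ℝ) * I) * (-I) := by
      push_cast
      have : I * I = -1 := Complex.I_mul_I
      linear_combination (a : ℂ) * this
    rw [h1, mul_neg, Complex.sinh_neg, Complex.sinh_mul_I]
    ring
  rw [h0, norm_neg, norm_mul, norm_I, one_mul]
  have := norm_sin_le (-b) a ha
  rw [abs_neg] at this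
  exact ⟨by linarith [this.1], this.2⟩

/-- The bound of `PT` by the trivial bound of the partial theta function. -/
lemma norm_PT_le (hp : Ptb3Statement) {κ t0 θ φ : ℝ} (h0 : 0 < t0) (h1 : t0 ≤ 1 / 50)
    (hκ : κ = 1 / 2 ∨ κ = 3 / 2) :
    ‖PT (tt t0 θ) (ww κ (tt t0 θ) φ)‖ ≤ 1.02 / t0 := by
  have hκ' : 1 / 2 ≤ κ := by rcases hκ with h | h <;> linarith
  unfold PT
  rw [norm_mul]
  have hre : (-(I * ww κ (tt t0 θ) φ)).re = -(κ * t0) := by
    simp [ww, tt]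
  have hre2 : (-(2 * I * ww κ (tt t0 θ) φ)).re = -(2 * (κ * t0)) := by
    simp [ww, tt]
  rw [Complex.norm_exp, hre]
  have hpos : 0 < κ * t0 := mul_pos (by linarith) h0
  have hk : t0 / 2 ≤ κ * t0 := by nlinarith
  have hn : ‖cexp (-(2 * I * ww κ (tt t0 θ) φ))‖ < 1 := by
    rw [Complex.norm_exp, hre2, Real.exp_lt_one_iff]
    linarith
  have hq : ‖cexp (-(tt t0 θ))‖ < 1 := by
    rw [Complex.norm_exp, Real.exp_lt_one_iff]
    simp [tt, h0]
  have hb := hp _ _ hq hn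
  rw [Complex.norm_exp, hre2] at hb
  have h3 : t0 / 1.02 ≤ 1 - Real.exp (-(2 * (κ * t0))) := by
    have h4 : 2 * (κ * t0) + 1 ≤ Real.exp (2 * (κ * t0)) := Real.add_one_le_exp _
    have h5 : Real.exp (-(2 * (κ * t0))) ≤ Real.exp (-t0) := Real.exp_le_exp.2 (by linarith)
    have h6 : 1 + t0 ≤ Real.exp t0 := by linarith [Real.add_one_le_exp t0]
    have h7 : Real.exp (-t0) ≤ 1 / (1 + t0) := by
      rw [Real.exp_neg, ← one_div]
      exact one_div_le_one_div_of_le (by linarith) h6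
    have h8 : t0 / 1.02 ≤ 1 - 1 / (1 + t0) := by
      have : 1 - 1 / (1 + t0) = t0 / (1 + t0) := by field_simp; ring
      rw [this]
      exact div_le_div_of_nonneg_left h0.le (by linarith) (by linarith)
    linarith
  have h4 : 0 < t0 / 1.02 := by positivity
  have h5 : 1 / (1 - Real.exp (-(2 * (κ * t0)))) ≤ 1.02 / t0 := by
    have := one_div_le_one_div_of_le h4 h3
    rwa [one_div_div] at this
  have h6 : Real.exp (-(κ * t0)) ≤ 1 := Real.exp_le_one_iff.2 (by linarith)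
  calc Real.exp (-(κ * t0)) * ‖pt (cexp (-tt t0 θ)) (cexp (-(2 * I * ww κ (tt t0 θ) φ)))‖
      ≤ 1 * (1.02 / t0) := mul_le_mul h6 (hb.trans h5) (norm_nonneg _) (by norm_num)
    _ = 1.02 / t0 := one_mul _

/-- The bound of `PT` when the partial theta function is at most one. -/
lemma norm_PT_le_one (hp : Ptb2Statement) {κ t0 v s : ℝ} (h0 : 0 < t0) (h1 : t0 ≤ 1 / 50)
    (hκ : κ = 1 / 2 ∨ κ = 3 / 2) (hv : |v| ≤ 3 / 5) (hs : |t0 * s| ≤ 1 / 2) :
    ‖PT (tt t0 (t0 * v)) (ww κ (tt t0 (t0 * v)) (t0 * s))‖ ≤ 1 := by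
  have hκ' : 1 / 2 ≤ κ := by rcases hκ with h | h <;> linarith
  have hκ2 : κ ≤ 3 / 2 := by rcases hκ with h | h <;> linarith
  unfold PT
  rw [norm_mul]
  have hre : (-(I * ww κ (tt t0 (t0 * v)) (t0 * s))).re = -(κ * t0) := by
    simp [ww, tt]
  have hpos : 0 < κ * t0 := mul_pos (by linarith) h0
  have hle : κ * t0 ≤ 3 / 100 := by nlinarith
  have harg : |2 * (t0 * s + κ * (t0 * v))| ≤ 11 / 10 := by
    have h2 : |κ * (t0 * v)| ≤ 3 / 100 * (3 / 5) := by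
      have : κ * (t0 * v) = (κ * t0) * v := by ring
      rw [this, abs_mul, abs_of_pos hpos]
      exact mul_le_mul hle hv (abs_nonneg v) (by norm_num)
    have h3 := abs_add_le (t0 * s) (κ * (t0 * v))
    rw [abs_mul, abs_of_pos (by norm_num : (0 : ℝ) < 2)]
    linarith
  have hz : cexp (-(2 * I * ww κ (tt t0 (t0 * v)) (t0 * s))) =
      (Real.exp (-(2 * (κ * t0))) : ℂ) * cexp (((-(2 * (t0 * s + κ * (t0 * v))) : ℝ) : ℂ) * I) := by
    rw [Complex.ofReal_exp, ← Complex.exp_add]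
    congr 1
    simp only [ww, tt]
    push_cast
    have : I * I = -1 := Complex.I_mul_I
    linear_combination (2 * κ * t0 : ℂ) * this + (2 * κ * t0 * v * I : ℂ) * this
  have hn : ‖cexp (-(2 * I * ww κ (tt t0 (t0 * v)) (t0 * s)))‖ = Real.exp (-(2 * (κ * t0))) := by
    rw [hz, norm_mul, Complex.norm_exp_ofReal_mul_I, mul_one, Complex.norm_real,
      Real.norm_eq_abs, abs_of_pos (Real.exp_pos _)]
  have ha : arg (cexp (-(2 * I * ww κ (tt t0 (t0 * v)) (t0 * s)))) =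
      -(2 * (t0 * s + κ * (t0 * v))) := by
    rw [hz, Complex.arg_real_mul _ (Real.exp_pos _), Complex.arg_exp_mul_I,
      toIocMod_eq_self]
    have := abs_le.1 harg
    have hpi := Real.pi_gt_three
    constructor <;> linarith
  have hb := hp t0 v (cexp (-(2 * I * ww κ (tt t0 (t0 * v)) (t0 * s)))) h0 h1 hv
    (by
      rw [hn]
      have := Real.add_one_le_exp (-(2 * (κ * t0)))
      linarith)
    (by
      rw [hn, Real.exp_le_one_iff]
      linarith)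
    (by rw [ha, abs_neg]; exact harg)
  rw [Complex.norm_exp, hre]
  have h6 : Real.exp (-(κ * t0)) ≤ 1 := Real.exp_le_one_iff.2 (by linarith)
  calc _ ≤ (1 : ℝ) * 1 := mul_le_mul h6 hb (norm_nonneg _) (by norm_num)
    _ = 1 := one_mul _

/-- The norm of the exponential factor. -/
lemma norm_expw (κ t0 v s : ℝ) :
    ‖cexp (((t0 : ℂ) * (sg κ s + κ * v)) ^ 2 / (2 * tt t0 (t0 * v)))‖ ≤
      Real.exp (t0 / 2 * (s ^ 2 / (1 + v ^ 2)) - t0 / 2 * κ ^ 2) := by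
  by_cases h0 : t0 = 0
  · subst h0; simp
  rw [Complex.norm_exp]
  apply le_of_eq
  congr 1
  have hv : (1 + (v : ℂ) ^ 2) ≠ 0 := by
    have : (1 + v ^ 2 : ℝ) ≠ 0 := by positivity
    exact_mod_cast this
  have hc : (t0 : ℂ) ≠ 0 := by exact_mod_cast h0
  have hτ : (1 + (v : ℂ) * I) ≠ 0 := by
    intro h
    have := congrArg Complex.re h
    simp at this
  have hI : I ^ 2 = -1 := Complex.I_sq
  have h1 : ((t0 : ℂ) * (sg κ s + κ * v)) ^ 2 / (2 * tt t0 (t0 * v)) =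
      ((t0 / 2 * (s ^ 2 / (1 + v ^ 2)) - t0 / 2 * κ ^ 2 : ℝ) : ℂ) +
      ((t0 / 2 * (-(s ^ 2 / (1 + v ^ 2) * v) - 2 * κ * s - κ ^ 2 * v) : ℝ) : ℂ) * I := by
    have h2 : (tt t0 (t0 * v)) = (t0 : ℂ) * (1 + v * I) := by
      simp only [tt]; push_cast; ring
    have h3 : sg κ s + κ * v = (s : ℂ) - I * κ * (1 + v * I) := by
      simp only [sg]
      linear_combination ((κ : ℂ) * v) * hI
    rw [h2, h3, div_eq_iff (by
      apply mul_ne_zero two_ne_zero (mul_ne_zero hc hτ))]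
    push_cast
    have hS : ((s : ℂ) ^ 2 / (1 + (v : ℂ) ^ 2)) * (1 + (v : ℂ) ^ 2) = (s : ℂ) ^ 2 :=
      div_mul_cancel₀ _ hv
    generalize ((s : ℂ) ^ 2 / (1 + (v : ℂ) ^ 2)) = S at hS ⊢
    linear_combination (-(t0 : ℂ) ^ 2) * hS +
      (t0 : ℂ) ^ 2 * ((κ : ℂ) ^ 2 * (1 + v * I) ^ 2 + S * (v : ℂ) ^ 2) * hI
  rw [h1, Complex.add_re, Complex.ofReal_re, Complex.re_ofReal_mul, Complex.I_re, mul_zero,
    add_zero]

end Pool.Agent.Helper21_UR.H85
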