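import Pool.Agent.Helper85_UR.Common

/-!
# Tail regions: common lemmas, continued (MP_c97607_co, modules T1-T5)
-/

namespace Pool.Agent.Helper21_UR.H85

open Complex MeasureTheory

lemma sin_arg {κ ch t0 v s : ℝ} {m n : ℕ} (h : TailHyp κ ch t0 m n) :
    ‖Complex.sin ((t0 : ℂ) * (sg κ s + κ * v) / 2)‖ ≤ 1.02 * (t0 / 2) * (|s| + 3 / 2 * (1 + |v|)) ∧
    ‖Complex.sin ((t0 : ℂ) * (sg κ s + κ * v) / 2)‖ ≤ 1.05 := by
  obtain ⟨h0, h1, -, hκ, h2, h3⟩ := h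
  have hκ0 : 0 < κ := by rcases hκ with h | h <;> linarith
  have hκ2 : κ ≤ 3 / 2 := by rcases hκ with h | h <;> linarith
  have he : (t0 : ℂ) * (sg κ s + κ * v) / 2 =
      ((t0 / 2 * (s + κ * v) : ℝ) : ℂ) + ((-(t0 / 2 * κ) : ℝ) : ℂ) * I := by
    simp only [sg]; push_cast; ring
  have hb : |-(t0 / 2 * κ)| ≤ 1 / 50 := by
    rw [abs_neg, abs_of_pos (by positivity)]
    nlinarith
  have := norm_sin_le (t0 / 2 * (s + κ * v)) (-(t0 / 2 * κ)) hb
  rw [← he] at this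
  refine ⟨this.1.trans ?_, this.2⟩
  rw [abs_neg, abs_of_pos (by positivity : 0 < t0 / 2 * κ), abs_mul,
    abs_of_pos (by positivity : 0 < t0 / 2)]
  have h4 := abs_add_le s (κ * v)
  rw [abs_mul, abs_of_pos hκ0] at h4
  have h5 : κ * |v| ≤ 3 / 2 * |v| := mul_le_mul_of_nonneg_right hκ2 (abs_nonneg v)
  have h6 : |s + κ * v| + κ ≤ |s| + 3 / 2 * (1 + |v|) := by linarith
  calc 1.02 * (t0 / 2 * |s + κ * v| + t0 / 2 * κ) = 1.02 * (t0 / 2) * (|s + κ * v| + κ) := by ring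
    _ ≤ _ := mul_le_mul_of_nonneg_left h6 (by positivity)

lemma sinh_arg {κ ch t0 v s : ℝ} {m n : ℕ} (h : TailHyp κ ch t0 m n) :
    ‖Complex.sinh ((t0 : ℂ) * (bt κ ch s + I * κ * v) / 2)‖ ≤
      1.02 * (t0 / 2) * (|s| + 3 / 2 * (1 + |v|)) ∧
    ‖Complex.sinh ((t0 : ℂ) * (bt κ ch s + I * κ * v) / 2)‖ ≤ 1.05 := by
  obtain ⟨h0, h1, -, hκ, h2, h3⟩ := h
  have hκ0 : 0 < κ := by rcases hκ with h | h <;> linarith
  have hκ1 : 1 / 2 ≤ κ := by rcases hκ with h | h <;> linarith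
  have hκ2 : κ ≤ 3 / 2 := by rcases hκ with h | h <;> linarith
  have he : (t0 : ℂ) * (bt κ ch s + I * κ * v) / 2 =
      ((t0 / 2 * (ch + κ) : ℝ) : ℂ) + ((t0 / 2 * (s + κ * v) : ℝ) : ℂ) * I := by
    simp only [bt]; push_cast; ring
  have hck : |ch + κ| ≤ 3 / 2 := abs_le.2 ⟨by linarith, by linarith⟩
  have hb : |t0 / 2 * (ch + κ)| ≤ 1 / 50 := by
    rw [abs_mul, abs_of_pos (by positivity : 0 < t0 / 2)]
    nlinarith [abs_nonneg (ch + κ)]
  have := norm_sinh_le (t0 / 2 * (ch + κ)) (t0 / 2 * (s + κ * v)) hb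
  rw [← he] at this
  refine ⟨this.1.trans ?_, this.2⟩
  rw [abs_mul, abs_mul, abs_of_pos (by positivity : 0 < t0 / 2)]
  have h4 := abs_add_le s (κ * v)
  rw [abs_mul, abs_of_pos hκ0] at h4
  have h5 : κ * |v| ≤ 3 / 2 * |v| := mul_le_mul_of_nonneg_right hκ2 (abs_nonneg v)
  have h6 : |ch + κ| + |s + κ * v| ≤ |s| + 3 / 2 * (1 + |v|) := by linarith
  calc 1.02 * (t0 / 2 * |ch + κ| + t0 / 2 * |s + κ * v|) =
      1.02 * (t0 / 2) * (|ch + κ| + |s + κ * v|) := by ring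
    _ ≤ _ := mul_le_mul_of_nonneg_left h6 (by positivity)

/-- The norm of the integrand for `|v| ≤ 3`. -/
lemma norm_integrand (hform : FormStatement) {κ ch t0 v s : ℝ} {m n : ℕ}
    (h : TailHyp κ ch t0 m n) (hv : |v| ≤ 3) (hs : |t0 * s| ≤ Real.pi) {b : ℝ} (hb : 0 < b)
    (hcosh : b * Real.exp (Real.pi * |s| / (1 + v ^ 2)) ≤
      ‖cosh ((Real.pi : ℂ) * s / (1 + (v : ℂ) * I))‖)
    {P Sn Sh : ℝ} (hP : ‖PT (tt t0 (t0 * v)) (ww κ (tt t0 (t0 * v)) (t0 * s))‖ ≤ P)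
    (hSn : ‖Complex.sin ((t0 : ℂ) * (sg κ s + κ * v) / 2)‖ ≤ Sn)
    (hSh : ‖Complex.sinh ((t0 : ℂ) * (bt κ ch s + I * κ * v) / 2)‖ ≤ Sh) :
    ‖cexp ((n : ℂ) * tt t0 (t0 * v)) * FF κ (tt t0 (t0 * v)) (ch * t0) m (t0 * s)‖ ≤
      Real.exp (zz t0) * KK (zz t0) v *
        (b⁻¹ * Real.exp (-((Real.pi * |s| - t0 / 2 * s ^ 2) / (1 + v ^ 2)))) *
        (P * Sn * (4 * Sh ^ 2) * 1.001) := by
  obtain ⟨h0, h1, htie, hκ, h2, h3⟩ := h
  obtain ⟨ε, hε, he⟩ := hform κ t0 ch v s m n h0 h1 hκ hv hs htie (tt t0 (t0 * v))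
    ((t0 : ℂ) * (sg κ s + κ * v)) ((t0 : ℂ) * (bt κ ch s + I * κ * v)) rfl rfl rfl
  have hw : ww κ (tt t0 (t0 * v)) (t0 * s) = (t0 : ℂ) * (sg κ s + κ * v) := by
    simp only [ww, tt, sg]
    push_cast
    linear_combination (-(κ : ℂ) * t0 * v) * (Complex.I_sq)
  rw [hw] at hP
  have hP0 : 0 ≤ P := (norm_nonneg _).trans hP
  have hSn0 : 0 ≤ Sn := (norm_nonneg _).trans hSn
  have hSh0 : 0 ≤ Sh := (norm_nonneg _).trans hSh
  rw [he]
  have e1 : ‖(Real.exp (zz t0) : ℂ)‖ = Real.exp (zz t0) := by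
    rw [Complex.norm_real, Real.norm_eq_abs, abs_of_pos (Real.exp_pos _)]
  have e2 : ‖(KK (zz t0) v : ℂ)‖ = KK (zz t0) v := by
    rw [Complex.norm_real, Real.norm_eq_abs, abs_of_pos (KK_pos _ _)]
  have e3 : ‖cexp (-(I * (m * t0 : ℝ) * s))‖ = 1 := by
    have : (-(I * (m * t0 : ℝ) * s)) = ((-(m * t0 * s) : ℝ) : ℂ) * I := by push_cast; ring
    rw [this, Complex.norm_exp_ofReal_mul_I]
  have e4 : ‖cexp (I * psi (zz t0) v)‖ = 1 := by
    rw [mul_comm, Complex.norm_exp_ofReal_mul_I]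
  have e5 : ‖(1 : ℂ) + ε‖ ≤ 1.001 := by
    refine (norm_add_le _ _).trans ?_
    rw [norm_one]; linarith
  have e6 : ‖(4 * sinh ((t0 : ℂ) * (bt κ ch s + I * κ * v) / 2) ^ 2)‖ ≤ 4 * Sh ^ 2 := by
    rw [norm_mul, norm_pow]
    have : ‖(4 : ℂ)‖ = 4 := by simp
    rw [this]
    have := pow_le_pow_left₀ (norm_nonneg _) hSh 2
    linarith
  have e7 := norm_expw κ t0 v s
  have hvv : 0 < 1 + v ^ 2 := by positivity
  have e8 : ‖cexp (((t0 : ℂ) * (sg κ s + κ * v)) ^ 2 / (2 * tt t0 (t0 * v)))‖ ≤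
      Real.exp (t0 / 2 * s ^ 2 / (1 + v ^ 2)) := by
    refine e7.trans (Real.exp_le_exp.2 ?_)
    have : 0 ≤ t0 / 2 * κ ^ 2 := by positivity
    have h9 : t0 / 2 * (s ^ 2 / (1 + v ^ 2)) = t0 / 2 * s ^ 2 / (1 + v ^ 2) := by ring
    linarith
  have e9 : ‖cosh ((Real.pi : ℂ) * s / (1 + (v : ℂ) * I))‖⁻¹ ≤
      b⁻¹ * Real.exp (-(Real.pi * |s| / (1 + v ^ 2))) := by
    rw [Real.exp_neg, ← mul_inv]
    exact inv_anti₀ (by positivity) hcosh
  have e10 : ‖PT (tt t0 (t0 * v)) ((t0 : ℂ) * (sg κ s + κ * v)) *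
      Complex.sin ((t0 : ℂ) * (sg κ s + κ * v) / 2) *
      (4 * sinh ((t0 : ℂ) * (bt κ ch s + I * κ * v) / 2) ^ 2) *
      cexp (((t0 : ℂ) * (sg κ s + κ * v)) ^ 2 / (2 * tt t0 (t0 * v))) * (1 + ε)‖ ≤
      P * Sn * (4 * Sh ^ 2) * Real.exp (t0 / 2 * s ^ 2 / (1 + v ^ 2)) * 1.001 := by
    rw [norm_mul, norm_mul, norm_mul, norm_mul]
    gcongr
  rw [norm_mul, norm_div, norm_mul, norm_mul, norm_mul, norm_mul, e1, e2, e3, e4, norm_vs,
    mul_one, mul_one, mul_one, div_eq_mul_inv]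
  calc Real.exp (zz t0) * KK (zz t0) v * ‖cosh ((Real.pi : ℂ) * s / (1 + (v : ℂ) * I))‖⁻¹ * _
      ≤ Real.exp (zz t0) * KK (zz t0) v * (b⁻¹ * Real.exp (-(Real.pi * |s| / (1 + v ^ 2)))) *
        (P * Sn * (4 * Sh ^ 2) * Real.exp (t0 / 2 * s ^ 2 / (1 + v ^ 2)) * 1.001) := by
        have := (KK_pos (zz t0) v).le
        gcongr
    _ = Real.exp (zz t0) * KK (zz t0) v * (b⁻¹ * (Real.exp (-(Real.pi * |s| / (1 + v ^ 2))) *
          Real.exp (t0 / 2 * s ^ 2 / (1 + v ^ 2)))) * (P * Sn * (4 * Sh ^ 2) * 1.001) := by ring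
    _ = _ := by
        rw [← Real.exp_add]
        congr 4
        ring

/-- Bound of the double integral by a product. -/
lemma JR_le {κ t0 c : ℝ} {m n : ℕ} {A : Set (ℝ × ℝ)} (hA : MeasurableSet A) {V Φ : Set ℝ}
    (hV : MeasurableSet V) (hΦ : MeasurableSet Φ) (hsub : A ⊆ V ×ˢ Φ) {g h : ℝ → ℝ}
    (hg : IntegrableOn g V) (hh : IntegrableOn h Φ) (hg0 : ∀ x ∈ V, 0 ≤ g x)
    (hh0 : ∀ x ∈ Φ, 0 ≤ h x)
    (hb : ∀ p ∈ A, ‖cexp ((n : ℂ) * tt t0 p.1) * FF κ (tt t0 p.1) c m p.2‖ ≤ g p.1 * h p.2) :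
    ‖JR κ t0 c m n A‖ ≤ 1 / (4 * Real.pi ^ 2) * ((∫ x in V, g x) * ∫ y in Φ, h y) := by
  unfold JR
  rw [norm_mul]
  have h1 : ‖(1 / (4 * (Real.pi : ℂ) ^ 2))‖ = 1 / (4 * Real.pi ^ 2) := by
    have : (1 / (4 * (Real.pi : ℂ) ^ 2)) = ((1 / (4 * Real.pi ^ 2) : ℝ) : ℂ) := by push_cast; ring
    rw [this, Complex.norm_real, Real.norm_eq_abs, abs_of_pos (by positivity)]
  rw [h1]
  refine mul_le_mul_of_nonneg_left ?_ (by positivity)
  have hint : IntegrableOn (fun p : ℝ × ℝ => g p.1 * h p.2) (V ×ˢ Φ) := by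
    unfold IntegrableOn
    rw [Measure.volume_eq_prod, ← Measure.prod_restrict]
    exact Integrable.mul_prod hg hh
  have h2 : ‖∫ p in A, cexp ((n : ℂ) * tt t0 p.1) * FF κ (tt t0 p.1) c m p.2‖ ≤
      ∫ p in A, g p.1 * h p.2 := by
    apply norm_integral_le_of_norm_le (hint.mono_set hsub)
    exact (ae_restrict_iff' hA).2 (Filter.Eventually.of_forall hb)
  refine h2.trans ?_
  rw [← setIntegral_prod_mul, ← Measure.volume_eq_prod]
  apply setIntegral_mono_set hint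
  · refine (ae_restrict_iff' (hV.prod hΦ)).2 (Filter.Eventually.of_forall ?_)
    rintro ⟨x, y⟩ ⟨hx, hy⟩
    exact mul_nonneg (hg0 x hx) (hh0 y hy)
  · exact Filter.Eventually.of_forall hsub

/-- The two-sided exponential tail. -/
lemma tail_int {b c : ℝ} (hb : 0 < b) (hc : 0 ≤ c) :
    IntegrableOn (fun x : ℝ => Real.exp (-(b * (|x| - c)))) {x : ℝ | c < |x|} ∧
    ∫ x in {x : ℝ | c < |x|}, Real.exp (-(b * (|x| - c))) = 2 / b := by
  have hset : {x : ℝ | c < |x|} = Set.Ioi c ∪ Set.Iio (-c) := by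
    ext x
    simp only [Set.mem_ofPred_eq, Set.mem_union, Set.mem_Ioi, Set.mem_Iio, lt_abs]
    constructor
    · rintro (h | h)
      · exact Or.inl h
      · exact Or.inr (by linarith)
    · rintro (h | h)
      · exact Or.inl h
      · exact Or.inr (by linarith)
  have e1 : Set.EqOn (fun x : ℝ => Real.exp (-(b * (|x| - c))))
      (fun x => Real.exp (b * c) * Real.exp (-b * x)) (Set.Ioi c) := by
    intro x hx
    have : 0 < x := lt_of_le_of_lt hc hx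
    dsimp only
    rw [abs_of_pos this, ← Real.exp_add]
    congr 1; ring
  have e2 : Set.EqOn (fun x : ℝ => Real.exp (-(b * (|x| - c))))
      (fun x => Real.exp (b * c) * Real.exp (b * x)) (Set.Iio (-c)) := by
    intro x hx
    have : x < 0 := lt_of_lt_of_le hx (by linarith)
    dsimp only
    rw [abs_of_neg this, ← Real.exp_add]
    congr 1; ring
  have i1 : IntegrableOn (fun x : ℝ => Real.exp (-(b * (|x| - c)))) (Set.Ioi c) := by
    rw [integrableOn_congr_fun e1 measurableSet_Ioi]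
    exact (integrableOn_exp_mul_Ioi (by linarith : -b < 0) c).const_mul _
  have i2 : IntegrableOn (fun x : ℝ => Real.exp (-(b * (|x| - c)))) (Set.Iio (-c)) := by
    rw [integrableOn_congr_fun e2 measurableSet_Iio]
    exact ((integrableOn_exp_mul_Iic hb (-c)).mono_set Set.Iio_subset_Iic_self).const_mul _
  rw [hset]
  refine ⟨i1.union i2, ?_⟩
  have hdis : Disjoint (Set.Ioi c) (Set.Iio (-c)) := by
    rw [Set.disjoint_left]
    intro x hx hx'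
    have h1 : c < x := hx
    have h2 : x < -c := hx'
    linarith
  rw [setIntegral_union hdis measurableSet_Iio i1 i2, setIntegral_congr_fun measurableSet_Ioi e1,
    setIntegral_congr_fun measurableSet_Iio e2, integral_const_mul, integral_const_mul,
    integral_exp_mul_Ioi (by linarith : -b < 0), ← integral_Iic_eq_integral_Iio,
    integral_exp_mul_Iic hb]
  have h3 : Real.exp (b * c) * (-Real.exp (-b * c) / -b) = 1 / b := by
    rw [neg_div_neg_eq, ← mul_div_assoc, ← Real.exp_add]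
    have : b * c + -b * c = 0 := by ring
    rw [this, Real.exp_zero]
  have h4 : Real.exp (b * c) * (Real.exp (b * -c) / b) = 1 / b := by
    rw [← mul_div_assoc, ← Real.exp_add]
    have : b * c + b * -c = 0 := by ring
    rw [this, Real.exp_zero]
  rw [h3, h4]
  ring

lemma zz_ge {t0 : ℝ} (h0 : 0 < t0) (h1 : t0 ≤ 1 / 50) : 328 ≤ zz t0 := by
  unfold zz
  rw [le_div_iff₀ (by positivity)]
  have := Real.pi_gt_d2
  nlinarith

end Pool.Agent.Helper21_UR.H85
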