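import Pool.Agent.Helper85_UR.Common2

/-!
# Module T1 (MP_c97607_co)
-/

namespace Pool.Agent.Helper21_UR.H85

open Complex MeasureTheory

lemma meas1 (a : ℝ) : MeasurableSet {p : ℝ × ℝ | |p.1| ≤ a} :=
  measurableSet_le (measurable_fst.norm) measurable_const

lemma meas2 (a : ℝ) : MeasurableSet {p : ℝ × ℝ | |p.2| ≤ a} :=
  measurableSet_le (measurable_snd.norm) measurable_const

lemma meas3 (a : ℝ) : MeasurableSet {p : ℝ × ℝ | a < |p.1|} :=
  measurableSet_lt measurable_const (measurable_fst.norm)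

lemma meas4 (a : ℝ) : MeasurableSet {p : ℝ × ℝ | a < |p.2|} :=
  measurableSet_lt measurable_const (measurable_snd.norm)

lemma measurable_A1 (t0 : ℝ) : MeasurableSet (A1 t0) :=
  (meas1 _).inter ((meas4 _).inter (meas2 _))

lemma measurable_A2 (t0 : ℝ) : MeasurableSet (A2 t0) :=
  (meas3 _).inter ((meas1 _).inter (meas2 _))

lemma measurable_A3 (t0 : ℝ) : MeasurableSet (A3 t0) :=
  (meas1 _).inter ((meas4 _).inter (meas2 _))

lemma measurable_A4 (t0 : ℝ) : MeasurableSet (A4 t0) :=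
  (meas3 _).inter ((meas1 _).inter (meas2 _))

lemma measurable_A5 (t0 : ℝ) : MeasurableSet (A5 t0) :=
  (meas3 _).inter ((meas1 _).inter (meas2 _))

lemma continuous_KK (z : ℝ) : Continuous (KK z) := by
  unfold KK
  apply Real.continuous_exp.comp
  apply Continuous.mul continuous_const
  apply Continuous.div (by fun_prop) (by fun_prop)
  intro x
  positivity

lemma int_K {t0 : ℝ} (h0 : 0 < t0) (z : ℝ) :
    ∫ x in Set.Icc (-(3 / 10 * t0)) (3 / 10 * t0), KK z (x / t0) =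
      t0 * ∫ v in (-(3 / 10 : ℝ))..(3 / 10), KK z v := by
  rw [integral_Icc_eq_integral_Ioc, ← intervalIntegral.integral_of_le (by linarith),
    intervalIntegral.integral_comp_div _ h0.ne', smul_eq_mul]
  congr 2 <;> field_simp

lemma exp_1325 : Real.exp (-13.25) ≤ 1 / 500000 := by
  rw [Real.exp_neg, ← one_div]
  apply one_div_le_one_div_of_le (by norm_num)
  have h1 : Real.exp 13.25 = Real.exp 1 ^ 13 * Real.exp 0.25 := by
    rw [← Real.exp_nat_mul, ← Real.exp_add]; norm_num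
  have h2 : (2.7 : ℝ) ≤ Real.exp 1 := by linarith [Real.exp_one_gt_d9]
  have h3 : (1.25 : ℝ) ≤ Real.exp 0.25 := by linarith [Real.add_one_le_exp (0.25 : ℝ)]
  have h4 : (2.7 : ℝ) ^ 13 ≤ Real.exp 1 ^ 13 := pow_le_pow_left₀ (by norm_num) h2 13
  rw [h1]
  calc (500000 : ℝ) ≤ 2.7 ^ 13 * 1.25 := by norm_num
    _ ≤ _ := mul_le_mul h4 h3 (by norm_num) (by positivity)

theorem t1 (hform : FormStatement) (hcb : CbStatement) (hp : Ptb2Statement)
    (hl : LapmStatement) : T1Statement := by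
  intro κ ch t0 m n h
  have h0 : 0 < t0 := h.1
  have h1 : t0 ≤ 1 / 50 := h.2.1
  have hκ := h.2.2.2.1
  set z := zz t0 with hz
  have hzpos : 0 < z := by have := zz_ge h0 h1; linarith
  set C : ℝ := 1.1 * (343 * Real.exp (-13.25)) with hC
  have hCpos : 0 < C := by positivity
  have key : ∀ p ∈ A1 t0, ‖cexp ((n : ℂ) * tt t0 p.1) * FF κ (tt t0 p.1) (ch * t0) m p.2‖ ≤
      (Real.exp z * KK z (p.1 / t0) * (C * t0 ^ 3)) *
        Real.exp (-((2.22 / t0) * (|p.2| - 5 * t0))) := by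
    rintro ⟨θ, φ⟩ ⟨hθ, hφ5, hφ⟩
    dsimp only at hθ hφ5 hφ ⊢
    obtain ⟨v, rfl⟩ : ∃ v, θ = t0 * v := ⟨θ / t0, by field_simp⟩
    obtain ⟨s, rfl⟩ : ∃ s, φ = t0 * s := ⟨φ / t0, by field_simp⟩
    have hv : |v| ≤ 3 / 10 := by
      rw [abs_mul, abs_of_pos h0] at hθ
      nlinarith
    have hs5 : 5 < |s| := by
      rw [abs_mul, abs_of_pos h0] at hφ5
      nlinarith
    have hs : t0 * |s| ≤ 1 / 2 := by
      rwa [abs_mul, abs_of_pos h0] at hφ
    have hv2 : v ^ 2 ≤ 9 / 100 := by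
      rw [← sq_abs]
      nlinarith [abs_nonneg v]
    have hpi := Real.pi_gt_d2
    have hcosh := (hcb s v).2.2 hv
    have hS := sin_arg (s := s) (v := v) h
    have hH := sinh_arg (s := s) (v := v) h
    have hmain := norm_integrand hform h (v := v) (s := s) (by linarith) (by linarith)
      (by norm_num : (0 : ℝ) < 0.485) hcosh
      (norm_PT_le_one hp h0 h1 hκ (by linarith) hφ)
      (hS.1) (hH.1)
    rw [mul_div_cancel_left₀ _ h0.ne']
    refine hmain.trans ?_
    rw [← hz]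
    have hB : |s| + 3 / 2 * (1 + |v|) ≤ |s| + 2 := by linarith
    have hexp : Real.exp (-((Real.pi * |s| - t0 / 2 * s ^ 2) / (1 + v ^ 2))) ≤
        Real.exp (-13.25) * Real.exp (-(2.65 * (|s| - 5))) := by
      rw [← Real.exp_add, Real.exp_le_exp]
      have hs2 : s ^ 2 = |s| * |s| := by rw [← sq_abs, pow_two]
      have e1 : 2.65 * |s| ≤ (Real.pi * |s| - t0 / 2 * s ^ 2) / (1 + v ^ 2) := by
        rw [le_div_iff₀ (by positivity), hs2]
        have e2 : t0 / 2 * (|s| * |s|) ≤ 1 / 4 * |s| := by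
          have := mul_le_mul_of_nonneg_right hs (abs_nonneg s)
          linarith
        have e3 : 2.65 * |s| * (1 + v ^ 2) ≤ 2.65 * |s| * (109 / 100) := by
          apply mul_le_mul_of_nonneg_left _ (by positivity)
          linarith
        have e4 : 3.14 * |s| ≤ Real.pi * |s| := mul_le_mul_of_nonneg_right hpi.le (abs_nonneg s)
        have e5 : 0 ≤ |s| := abs_nonneg s
        nlinarith
      linarith
    have hcube : (|s| + 2) ^ 3 ≤ 343 * Real.exp (3 / 7 * (|s| - 5)) := by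
      have e1 : (|s| + 2) / 7 ≤ Real.exp ((|s| - 5) / 7) := by
        have := Real.add_one_le_exp ((|s| - 5) / 7)
        linarith
      have e2 := pow_le_pow_left₀ (by positivity) e1 3
      rw [← Real.exp_nat_mul] at e2
      have e3 : ((3 : ℕ) : ℝ) * ((|s| - 5) / 7) = 3 / 7 * (|s| - 5) := by push_cast; ring
      rw [e3] at e2
      have e4 : ((|s| + 2) / 7) ^ 3 = (|s| + 2) ^ 3 / 343 := by ring
      rw [e4] at e2
      linarith
    have hlast : Real.exp (3 / 7 * (|s| - 5)) * Real.exp (-(2.65 * (|s| - 5))) ≤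
        Real.exp (-((2.22 / t0) * (|t0 * s| - 5 * t0))) := by
      rw [← Real.exp_add, Real.exp_le_exp, abs_mul, abs_of_pos h0]
      have : 2.22 / t0 * (t0 * |s| - 5 * t0) = 2.22 * (|s| - 5) := by field_simp
      rw [this]
      linarith
    have hS0 : 0 ≤ |s| + 3 / 2 * (1 + |v|) := by positivity
    have hprod : (1 : ℝ) * (1.02 * (t0 / 2) * (|s| + 3 / 2 * (1 + |v|))) *
        (4 * (1.02 * (t0 / 2) * (|s| + 3 / 2 * (1 + |v|))) ^ 2) * 1.001 ≤
        0.5312 * t0 ^ 3 * (|s| + 2) ^ 3 := by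
      have e1 : (1 : ℝ) * (1.02 * (t0 / 2) * (|s| + 3 / 2 * (1 + |v|))) *
        (4 * (1.02 * (t0 / 2) * (|s| + 3 / 2 * (1 + |v|))) ^ 2) * 1.001 =
        (1.02 ^ 3 / 2 * 1.001) * t0 ^ 3 * (|s| + 3 / 2 * (1 + |v|)) ^ 3 := by ring
      rw [e1]
      have e2 : (|s| + 3 / 2 * (1 + |v|)) ^ 3 ≤ (|s| + 2) ^ 3 := pow_le_pow_left₀ hS0 hB 3
      have e3 : (1.02 ^ 3 / 2 * 1.001 : ℝ) ≤ 0.5312 := by norm_num
      gcongr
    have hK := (KK_pos z v).le
    calc Real.exp z * KK z v *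
          (0.485⁻¹ * Real.exp (-((Real.pi * |s| - t0 / 2 * s ^ 2) / (1 + v ^ 2)))) *
          (1 * (1.02 * (t0 / 2) * (|s| + 3 / 2 * (1 + |v|))) *
        (4 * (1.02 * (t0 / 2) * (|s| + 3 / 2 * (1 + |v|))) ^ 2) * 1.001)
        ≤ Real.exp z * KK z v *
          (0.485⁻¹ * (Real.exp (-13.25) * Real.exp (-(2.65 * (|s| - 5))))) *
          (0.5312 * t0 ^ 3 * (343 * Real.exp (3 / 7 * (|s| - 5)))) := by
          apply mul_le_mul _ _ (by positivity) (by positivity)
          · gcongr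
          · refine hprod.trans ?_
            gcongr
      _ = (Real.exp z * KK z v * ((0.485⁻¹ * 0.5312) * (343 * Real.exp (-13.25)) * t0 ^ 3)) *
          (Real.exp (3 / 7 * (|s| - 5)) * Real.exp (-(2.65 * (|s| - 5)))) := by ring
      _ ≤ (Real.exp z * KK z v * (C * t0 ^ 3)) *
          Real.exp (-((2.22 / t0) * (|t0 * s| - 5 * t0))) := by
          apply mul_le_mul _ hlast (by positivity) (by positivity)
          apply mul_le_mul_of_nonneg_left _ (by positivity)
          apply mul_le_mul_of_nonneg_right _ (by positivity)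
          rw [hC]
          apply mul_le_mul_of_nonneg_right _ (by positivity)
          norm_num
  obtain ⟨hi, hI⟩ := tail_int (b := 2.22 / t0) (c := 5 * t0) (by positivity) (by positivity)
  have hg : Continuous fun x : ℝ => Real.exp z * KK z (x / t0) * (C * t0 ^ 3) := by
    have := (continuous_KK z).comp (by fun_prop : Continuous fun x : ℝ => x / t0)
    exact (continuous_const.mul this).mul continuous_const
  have hJ := JR_le (κ := κ) (t0 := t0) (c := ch * t0) (m := m) (n := n) (measurable_A1 t0)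
    (V := Set.Icc (-(3 / 10 * t0)) (3 / 10 * t0)) (Φ := {x : ℝ | 5 * t0 < |x|})
    measurableSet_Icc (measurableSet_lt (by fun_prop) (by fun_prop))
    (by
      rintro ⟨θ, φ⟩ ⟨hθ, hφ5, hφ⟩
      exact ⟨abs_le.1 hθ, hφ5⟩)
    (g := fun x => Real.exp z * KK z (x / t0) * (C * t0 ^ 3))
    (h := fun y => Real.exp (-((2.22 / t0) * (|y| - 5 * t0))))
    hg.integrableOn_Icc hi
    (fun x _ => by have := (KK_pos z (x / t0)).le; positivity)
    (fun y _ => (Real.exp_pos _).le) key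
  refine hJ.trans ?_
  rw [hI, integral_mul_const, integral_const_mul, int_K h0]
  have hlap := hl z (zz_ge h0 h1) 0 1.05 (Or.inl rfl)
  simp only [pow_zero, mul_one] at hlap
  have hsq : 0 ≤ Real.sqrt (2 * Real.pi / z) := Real.sqrt_nonneg _
  unfold W0
  rw [← hz]
  have hCle : C ≤ 1.1 * (343 * (1 / 500000)) := by
    rw [hC]
    have := exp_1325
    gcongr
  have e1 : 1 / (4 * Real.pi ^ 2) * (Real.exp z * (t0 * ∫ v in (-(3 / 10 : ℝ))..(3 / 10), KK z v) *
      (C * t0 ^ 3) * (2 / (2.22 / t0))) =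
      (t0 ^ 5 / (8 * Real.pi ^ 2) * Real.exp z) *
        ((4 / 2.22 * C) * ∫ v in (-(3 / 10 : ℝ))..(3 / 10), KK z v) := by
    field_simp
    ring
  rw [e1]
  have e2 : (4 / 2.22 * C) * (∫ v in (-(3 / 10 : ℝ))..(3 / 10), KK z v) ≤
      3 / 1000 * Real.sqrt (2 * Real.pi / z) := by
    calc (4 / 2.22 * C) * (∫ v in (-(3 / 10 : ℝ))..(3 / 10), KK z v)
        ≤ (4 / 2.22 * C) * (1.05 * Real.sqrt (2 * Real.pi / z)) := by gcongr
      _ ≤ (4 / 2.22 * (1.1 * (343 * (1 / 500000)))) * (1.05 * Real.sqrt (2 * Real.pi / z)) := by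
          gcongr
      _ ≤ _ := by nlinarith
  calc _ ≤ (t0 ^ 5 / (8 * Real.pi ^ 2) * Real.exp z) * (3 / 1000 * Real.sqrt (2 * Real.pi / z)) :=
        mul_le_mul_of_nonneg_left e2 (by positivity)
    _ = _ := by ring

end Pool.Agent.Helper21_UR.H85
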